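import Mathlib
import Pool.Agent.H92.SG.Stmts

/-!
# The form of `n` blocks (module BLKF of the board sg7)
-/

namespace Pool.Agent.H81.SG

open Pool.Agent.H92.SG
open PowerSeries

section general

variable {R : Type} [CommRing R] {m : ℕ}

theorem pr_add_left (c : R →+* R) (u u' v : V2 R) : pr c (u + u') v = pr c u v + pr c u' v := by
  simp [pr, Fin.sum_univ_two]; ring

theorem pr_add_right (c : R →+* R) (u v v' : V2 R) : pr c u (v + v') = pr c u v + pr c u v' := by
  simp [pr, Fin.sum_univ_two]; ring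

theorem pr_smul_left (c : R →+* R) (r : R) (u v : V2 R) : pr c (r • u) v = c r * pr c u v := by
  simp [pr, Fin.sum_univ_two]; ring

theorem pr_smul_right (c : R →+* R) (r : R) (u v : V2 R) : pr c u (r • v) = r * pr c u v := by
  simp [pr, Fin.sum_univ_two]; ring

theorem pr_zero_left (c : R →+* R) (v : V2 R) : pr c 0 v = 0 := by
  simp [pr]

theorem pr_sum_left (c : R →+* R) (s : Finset ℕ) (w : ℕ → V2 R) (v : V2 R) :
    pr c (∑ i ∈ s, w i) v = ∑ i ∈ s, pr c (w i) v := by
  classical
  induction s using Finset.induction_on with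
  | empty => simp [pr_zero_left]
  | insert a s ha ih => rw [Finset.sum_insert ha, Finset.sum_insert ha, pr_add_left, ih]

theorem Sv_add (e : AddChar (ZMod m) R) (a : ZMod m) (v v' : V2 R) :
    Sv e a (v + v') = Sv e a v + Sv e a v' := by
  funext i; fin_cases i <;> simp [Sv] <;> ring

theorem Sv_smul (e : AddChar (ZMod m) R) (a : ZMod m) (r : R) (v : V2 R) :
    Sv e a (r • v) = r • Sv e a v := by
  funext i; fin_cases i <;> simp [Sv] <;> ring

/-- The vector paired with `x i` in the diagonal term of `Om`. -/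
def dg (t : Rˣ) (e : AddChar (ZMod m) R) (a : ZMod m) (v : V2 R) : V2 R :=
  ((t : R) + ((t⁻¹ : Rˣ) : R)) • v + (2 : R) • Sv e a v

theorem dg_add (t : Rˣ) (e : AddChar (ZMod m) R) (a : ZMod m) (v v' : V2 R) :
    dg t e a (v + v') = dg t e a v + dg t e a v' := by
  unfold dg
  rw [Sv_add, smul_add, smul_add]; abel

theorem dg_smul (t : Rˣ) (e : AddChar (ZMod m) R) (a : ZMod m) (r : R) (v : V2 R) :
    dg t e a (r • v) = r • dg t e a v := by
  unfold dg
  rw [Sv_smul, smul_add, smul_comm r, smul_comm r]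

theorem Om_eq (c : R →+* R) (t : Rˣ) (e : AddChar (ZMod m) R) (N : ℕ) (a : ℕ → ZMod m)
    (x y : ℕ → V2 R) : Om c t e N a x y =
      (∑ i ∈ Finset.range N, pr c (x i) (dg t e (a i) (y i))) +
      (((t⁻¹ : Rˣ) : R) - (t : R)) *
        ∑ j ∈ Finset.range N, ∑ i ∈ Finset.range j, (pr c (x i) (y j) - pr c (x j) (y i)) := rfl

theorem Om_add_left (c : R →+* R) (t : Rˣ) (e : AddChar (ZMod m) R) (N : ℕ) (a : ℕ → ZMod m)
    (x x' y : ℕ → V2 R) : Om c t e N a (x + x') y = Om c t e N a x y + Om c t e N a x' y := by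
  rw [Om_eq, Om_eq, Om_eq]
  have h1 : (∑ i ∈ Finset.range N, pr c ((x + x') i) (dg t e (a i) (y i))) =
      (∑ i ∈ Finset.range N, pr c (x i) (dg t e (a i) (y i))) +
      (∑ i ∈ Finset.range N, pr c (x' i) (dg t e (a i) (y i))) := by
    rw [← Finset.sum_add_distrib]
    exact Finset.sum_congr rfl fun i _ => by rw [Pi.add_apply, pr_add_left]
  have h2 : (∑ j ∈ Finset.range N, ∑ i ∈ Finset.range j,
        (pr c ((x + x') i) (y j) - pr c ((x + x') j) (y i))) =
      (∑ j ∈ Finset.range N, ∑ i ∈ Finset.range j, (pr c (x i) (y j) - pr c (x j) (y i))) +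
      (∑ j ∈ Finset.range N, ∑ i ∈ Finset.range j, (pr c (x' i) (y j) - pr c (x' j) (y i))) := by
    rw [← Finset.sum_add_distrib]
    refine Finset.sum_congr rfl fun j _ => ?_
    rw [← Finset.sum_add_distrib]
    refine Finset.sum_congr rfl fun i _ => ?_
    rw [Pi.add_apply, Pi.add_apply, pr_add_left, pr_add_left]; ring
  rw [h1, h2]; ring

theorem Om_smul_left (c : R →+* R) (t : Rˣ) (e : AddChar (ZMod m) R) (N : ℕ) (a : ℕ → ZMod m)
    (r : R) (x y : ℕ → V2 R) : Om c t e N a (r • x) y = c r * Om c t e N a x y := by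
  rw [Om_eq, Om_eq]
  have h1 : (∑ i ∈ Finset.range N, pr c ((r • x) i) (dg t e (a i) (y i))) =
      c r * (∑ i ∈ Finset.range N, pr c (x i) (dg t e (a i) (y i))) := by
    rw [Finset.mul_sum]
    exact Finset.sum_congr rfl fun i _ => by rw [Pi.smul_apply, pr_smul_left]
  have h2 : (∑ j ∈ Finset.range N, ∑ i ∈ Finset.range j,
        (pr c ((r • x) i) (y j) - pr c ((r • x) j) (y i))) =
      c r * (∑ j ∈ Finset.range N, ∑ i ∈ Finset.range j,
        (pr c (x i) (y j) - pr c (x j) (y i))) := by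
    rw [Finset.mul_sum]
    refine Finset.sum_congr rfl fun j _ => ?_
    rw [Finset.mul_sum]
    refine Finset.sum_congr rfl fun i _ => ?_
    rw [Pi.smul_apply, Pi.smul_apply, pr_smul_left, pr_smul_left]; ring
  rw [h1, h2]; ring

theorem Om_add_right (c : R →+* R) (t : Rˣ) (e : AddChar (ZMod m) R) (N : ℕ) (a : ℕ → ZMod m)
    (x y y' : ℕ → V2 R) : Om c t e N a x (y + y') = Om c t e N a x y + Om c t e N a x y' := by
  rw [Om_eq, Om_eq, Om_eq]
  have h1 : (∑ i ∈ Finset.range N, pr c (x i) (dg t e (a i) ((y + y') i))) =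
      (∑ i ∈ Finset.range N, pr c (x i) (dg t e (a i) (y i))) +
      (∑ i ∈ Finset.range N, pr c (x i) (dg t e (a i) (y' i))) := by
    rw [← Finset.sum_add_distrib]
    exact Finset.sum_congr rfl fun i _ => by rw [Pi.add_apply, dg_add, pr_add_right]
  have h2 : (∑ j ∈ Finset.range N, ∑ i ∈ Finset.range j,
        (pr c (x i) ((y + y') j) - pr c (x j) ((y + y') i))) =
      (∑ j ∈ Finset.range N, ∑ i ∈ Finset.range j, (pr c (x i) (y j) - pr c (x j) (y i))) +
      (∑ j ∈ Finset.range N, ∑ i ∈ Finset.range j, (pr c (x i) (y' j) - pr c (x j) (y' i))) := by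
    rw [← Finset.sum_add_distrib]
    refine Finset.sum_congr rfl fun j _ => ?_
    rw [← Finset.sum_add_distrib]
    refine Finset.sum_congr rfl fun i _ => ?_
    rw [Pi.add_apply, Pi.add_apply, pr_add_right, pr_add_right]; ring
  rw [h1, h2]; ring

theorem Om_smul_right (c : R →+* R) (t : Rˣ) (e : AddChar (ZMod m) R) (N : ℕ) (a : ℕ → ZMod m)
    (r : R) (x y : ℕ → V2 R) : Om c t e N a x (r • y) = r * Om c t e N a x y := by
  rw [Om_eq, Om_eq]
  have h1 : (∑ i ∈ Finset.range N, pr c (x i) (dg t e (a i) ((r • y) i))) =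
      r * (∑ i ∈ Finset.range N, pr c (x i) (dg t e (a i) (y i))) := by
    rw [Finset.mul_sum]
    exact Finset.sum_congr rfl fun i _ => by rw [Pi.smul_apply, dg_smul, pr_smul_right]
  have h2 : (∑ j ∈ Finset.range N, ∑ i ∈ Finset.range j,
        (pr c (x i) ((r • y) j) - pr c (x j) ((r • y) i))) =
      r * (∑ j ∈ Finset.range N, ∑ i ∈ Finset.range j,
        (pr c (x i) (y j) - pr c (x j) (y i))) := by
    rw [Finset.mul_sum]
    refine Finset.sum_congr rfl fun j _ => ?_
    rw [Finset.mul_sum]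
    refine Finset.sum_congr rfl fun i _ => ?_
    rw [Pi.smul_apply, Pi.smul_apply, pr_smul_right, pr_smul_right]; ring
  rw [h1, h2]; ring

/-- Peeling the last strand. -/
theorem Om_succ (c : R →+* R) (t : Rˣ) (e : AddChar (ZMod m) R) (N : ℕ) (a : ℕ → ZMod m)
    (x y : ℕ → V2 R) : Om c t e (N + 1) a x y = Om c t e N a x y +
      (pr c (x N) (dg t e (a N) (y N)) + (((t⁻¹ : Rˣ) : R) - (t : R)) *
        (pr c (∑ i ∈ Finset.range N, x i) (y N) -
          ∑ i ∈ Finset.range N, pr c (x N) (y i))) := by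
  rw [Om_eq, Om_eq, Finset.sum_range_succ, Finset.sum_range_succ, Finset.sum_sub_distrib,
    pr_sum_left]
  ring

/-- Peeling the first strand. -/
theorem Om_succ' (c : R →+* R) (t : Rˣ) (e : AddChar (ZMod m) R) (N : ℕ) (a : ℕ → ZMod m)
    (x y : ℕ → V2 R) : Om c t e (N + 1) a x y =
      Om c t e N (fun i => a (i + 1)) (fun i => x (i + 1)) (fun i => y (i + 1)) +
      (pr c (x 0) (dg t e (a 0) (y 0)) + (((t⁻¹ : Rˣ) : R) - (t : R)) *
        ((∑ j ∈ Finset.range N, pr c (x 0) (y (j + 1))) -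
          pr c (∑ j ∈ Finset.range N, x (j + 1)) (y 0))) := by
  rw [Om_eq, Om_eq, Finset.sum_range_succ', Finset.sum_range_succ', pr_sum_left]
  simp only [Finset.range_zero, Finset.sum_empty, add_zero]
  have h : (∑ j ∈ Finset.range N, ∑ i ∈ Finset.range (j + 1),
      (pr c (x i) (y (j + 1)) - pr c (x (j + 1)) (y i))) =
      (∑ j ∈ Finset.range N, ∑ i ∈ Finset.range j,
        (pr c (x (i + 1)) (y (j + 1)) - pr c (x (j + 1)) (y (i + 1)))) +
      ((∑ j ∈ Finset.range N, pr c (x 0) (y (j + 1))) -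
        ∑ j ∈ Finset.range N, pr c (x (j + 1)) (y 0)) := by
    rw [← Finset.sum_sub_distrib, ← Finset.sum_add_distrib]
    exact Finset.sum_congr rfl fun j _ => by rw [Finset.sum_range_succ']
  rw [h]; ring

/-- Enlarging the number of strands. -/
theorem Om_ext (c : R →+* R) (t : Rˣ) (e : AddChar (ZMod m) R) (N : ℕ) (a : ℕ → ZMod m)
    (x y : ℕ → V2 R) (h0 : ∀ i, N ≤ i → x i = 0) (hs : ∑ i ∈ Finset.range N, x i = 0) :
    ∀ M, Om c t e (N + M) a x y = Om c t e N a x y ∧ ∑ i ∈ Finset.range (N + M), x i = 0 := by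
  intro M
  induction M with
  | zero => exact ⟨rfl, hs⟩
  | succ M ih =>
    obtain ⟨h1, h2⟩ := ih
    constructor
    · rw [← add_assoc, Om_succ, h1, h2, h0 (N + M) (by omega), pr_zero_left, pr_zero_left]
      simp [pr_zero_left]
    · rw [← add_assoc, Finset.sum_range_succ, h2, h0 (N + M) (by omega), add_zero]

/-- Removing the first strands. -/
theorem Om_shift (c : R →+* R) (t : Rˣ) (e : AddChar (ZMod m) R) (M : ℕ) :
    ∀ (n : ℕ) (a : ℕ → ZMod m) (x y : ℕ → V2 R), (∀ i < n, x i = 0) →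
    (∑ i ∈ Finset.range M, x (n + i) = 0) →
    Om c t e (n + M) a x y =
      Om c t e M (fun i => a (n + i)) (fun i => x (n + i)) (fun i => y (n + i)) := by
  intro n
  induction n with
  | zero => intro a x y _ _; simp
  | succ n ih =>
    intro a x y h0 hs
    have e1 : ∀ i, n + 1 + i = n + i + 1 := fun i => by omega
    rw [e1 M, Om_succ', ih (fun i => a (i + 1)) (fun i => x (i + 1)) (fun i => y (i + 1))
      (fun i hi => h0 (i + 1) (by omega)) (by simpa only [e1] using hs)]
    have hs' : ∑ j ∈ Finset.range (n + M), x (j + 1) = 0 := by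
      rw [Finset.sum_range_add]
      have : ∑ j ∈ Finset.range n, x (j + 1) = 0 :=
        Finset.sum_eq_zero fun j hj => h0 (j + 1) (by have := Finset.mem_range.mp hj; omega)
      rw [this, zero_add]
      simpa only [e1] using hs
    rw [hs', h0 0 (by omega)]
    simp only [pr_zero_left, Finset.sum_const_zero, sub_zero, mul_zero, add_zero]
    simp only [e1]

theorem tw_shn (hB : TwB) (t : Rˣ) (e : AddChar (ZMod m) R) (x : B) :
    ∀ (n : ℕ) (a : ℕ → ZMod m) (s : ℕ → V2 R),
    (∀ i < n, tw t e (sh^[n] x) a s i = s i) ∧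
    ∀ i, tw t e (sh^[n] x) a s (n + i) =
      tw t e x (fun j => a (n + j)) (fun j => s (n + j)) i := by
  intro n
  induction n with
  | zero => intro a s; exact ⟨fun i hi => absurd hi (by omega), fun i => by simp⟩
  | succ n ih =>
    intro a s
    rw [Function.iterate_succ_apply']
    obtain ⟨h1, h2⟩ := ih (fun j => a (j + 1)) (fun j => s (j + 1))
    constructor
    · intro i hi
      cases i with
      | zero => exact hB.sh0 R m t e _ a s
      | succ i => rw [hB.sh1]; exact h1 i (by omega)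
    · intro i
      have e1 : ∀ i, n + 1 + i = n + i + 1 := fun i => by omega
      simp only [e1]
      rw [hB.sh1, h2]

theorem dih_shn (hA : DihA) (A : Type) [CommRing A] (x : B) :
    ∀ (n : ℕ) (a : ℕ → A),
    (∀ i < n, dih A (sh^[n] x) a i = a i) ∧
    ∀ i, dih A (sh^[n] x) a (n + i) = dih A x (fun j => a (n + j)) i := by
  intro n
  induction n with
  | zero => intro a; exact ⟨fun i hi => absurd hi (by omega), fun i => by simp⟩
  | succ n ih =>
    intro a
    rw [Function.iterate_succ_apply']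
    obtain ⟨h1, h2⟩ := ih (fun j => a (j + 1))
    constructor
    · intro i hi
      cases i with
      | zero => exact hA.sh0 A _ a
      | succ i => rw [hA.sh1]; exact h1 i (by omega)
    · intro i
      have e1 : ∀ i, n + 1 + i = n + i + 1 := fun i => by omega
      simp only [e1]
      rw [hA.sh1, h2]

theorem dih_shn_fix (hA : DihA) (A : Type) [CommRing A] (x : B) (n : ℕ) (a : ℕ → A)
    (h : dih A x (fun i => a (n + i)) = fun i => a (n + i)) : dih A (sh^[n] x) a = a := by
  obtain ⟨h1, h2⟩ := dih_shn hA A x n a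
  funext i
  by_cases hi : i < n
  · exact h1 i hi
  · obtain ⟨j, rfl⟩ : ∃ j, i = n + j := ⟨i - n, by omega⟩
    rw [h2, h]

end general

theorem β77_mem : β77 ∈ Bn 4 := by
  unfold β77
  have h0 : σ 0 ∈ Bn 4 := σ_mem_Bn (by omega)
  have h1 : σ 1 ∈ Bn 4 := σ_mem_Bn (by omega)
  have h2 : σ 2 ∈ Bn 4 := σ_mem_Bn (by omega)
  exact mul_mem (mul_mem (mul_mem (mul_mem (mul_mem (mul_mem (inv_mem h0) h1) (inv_mem h0)) h1)
    (inv_mem h2)) h1) (inv_mem h2)

theorem conj_om3 : (starRingEnd ℂ) om3 = om3⁻¹ := by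
  have hn : ‖om3‖ = 1 := by
    have := congrArg norm om3_cube
    rw [norm_pow, norm_one] at this
    exact (pow_eq_one_iff_of_nonneg (norm_nonneg _) (by norm_num)).mp this
  rw [Complex.inv_def, Complex.normSq_eq_norm_sq, hn]
  simp

theorem om3_ne_one : om3 ≠ 1 := by
  intro h
  have h2 := (Complex.exp_eq_one_iff.mp (show Complex.exp (2 * Real.pi * Complex.I / 3) = 1 from h))
  obtain ⟨n, hn⟩ := h2
  have hp : (2 * Real.pi * Complex.I : ℂ) ≠ 0 := Complex.two_pi_I_ne_zero
  have h3 : (1 : ℂ) / 3 = n := by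
    have : (2 * Real.pi * Complex.I : ℂ) * (1 / 3) = (2 * Real.pi * Complex.I) * n := by
      rw [mul_comm _ (n : ℂ), ← hn]; ring
    exact mul_left_cancel₀ hp this
  have h4 : (1 : ℂ) = ((3 * n : ℤ) : ℂ) := by
    push_cast; rw [← h3]; norm_num
  have h5 : (1 : ℤ) = 3 * n := by exact_mod_cast h4
  omega

theorem om3_quad : om3 ^ 2 + om3 + 1 = 0 := by
  have h := om3_cube
  have h1 : (om3 - 1) * (om3 ^ 2 + om3 + 1) = 0 := by linear_combination h
  rcases mul_eq_zero.mp h1 with h2 | h2
  · exact absurd (sub_eq_zero.mp h2) om3_ne_one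
  · exact h2

theorem conj_th3 : (starRingEnd ℂ) th3 = - th3 := by
  unfold th3
  rw [map_add, map_mul, map_one, conj_om3]
  have h2 : (starRingEnd ℂ) 2 = 2 := by
    rw [show (2 : ℂ) = ((2 : ℝ) : ℂ) by norm_num, Complex.conj_ofReal]
  rw [h2]
  have h3 : om3⁻¹ = om3 ^ 2 := by
    rw [inv_eq_iff_eq_inv, eq_comm, inv_eq_of_mul_eq_one_left]
    rw [← om3_cube]; ring
  rw [h3]
  linear_combination 2 * om3_quad

theorem cX_C (z : ℂ) : cX (C z) = C ((starRingEnd ℂ) z) := by
  unfold cX; simp

theorem cX_X : cX (X : PowerSeries ℂ) = X := by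
  unfold cX; simp

theorem cX_inv (f : PowerSeries ℂ) (hf : constantCoeff f ≠ 0) : cX f⁻¹ = (cX f)⁻¹ := by
  have h1 : cX f * cX f⁻¹ = 1 := by
    rw [← map_mul, PowerSeries.mul_inv_cancel f hf, map_one]
  have h2 : constantCoeff (cX f) ≠ 0 := by
    intro h
    have := congrArg (fun g => constantCoeff (R := ℂ) g) h1
    simp [h] at this
  rw [PowerSeries.eq_inv_iff_mul_eq_one h2, mul_comm]
  exact h1

theorem cX_tX : cX (tX : PowerSeries ℂ) = ((tX⁻¹ : (PowerSeries ℂ)ˣ) : PowerSeries ℂ) := by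
  change cX (C om3 * (1 - C th3 * X) * (1 + C th3 * X)⁻¹) =
    C (om3⁻¹) * (1 + C th3 * X) * (1 - C th3 * X)⁻¹
  rw [map_mul, map_mul, cX_inv _ (by simp), map_sub, map_add, map_mul, map_one, cX_C, cX_C, cX_X,
    conj_om3, conj_th3]
  have h1 : (1 - C (-th3) * X : PowerSeries ℂ) = 1 + C th3 * X := by
    rw [map_neg]; ring
  have h2 : (1 + C (-th3) * X : PowerSeries ℂ) = 1 - C th3 * X := by
    rw [map_neg]; ring
  rw [h1, h2]

theorem cX_eX (k : ℕ) (a : ZMod (3 ^ (k + 1))) : cX (eX k a) = eX k (-a) := by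
  change cX (C (eC k a)) = C (eC k (-a))
  rw [cX_C, AddChar.map_neg_eq_conj]

theorem BLKF_thm (hTWA : TwA) (hTWB : TwB) (hTWF : TwFormStmt) (hBLKC : BlkColStmt)
    (hDIHA : DihA) (_hDIHB : DihB) : BlkFormStmt := by
  intro n k z a hP
  induction n with
  | zero =>
    intro x _
    have h0 : tw tX (eX k) (nfold 4 β77 0) a x - x = 0 := by
      rw [nfold, hTWA.one]; exact sub_self x
    rw [h0, Om_eq]
    simp [pr_zero_left]
  | succ n ih =>
    intro x hx
    have hPn : Pat n k z a := ⟨fun j hj => hP.1 j (by omega), fun j hj => hP.2 j (by omega)⟩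
    obtain ⟨hmem, hcol⟩ := hBLKC
    have hcn := (hcol n k z a hPn).1
    have hblk := (hcol (n + 1) k z a hP).2 n (by omega)
    have hβa : dih (ZMod (3 ^ (k + 1))) (sh^[3 * n] β77) a = a :=
      dih_shn_fix hDIHA _ _ _ _ hblk
    have hκ : nfold 4 β77 (n + 1) = nfold 4 β77 n * (sh^[3 * n]) β77 := by
      change nfold 4 β77 n * (sh^[n * (4 - 1)]) β77 = _
      rw [show n * (4 - 1) = 3 * n by omega]
    have htw : tw tX (eX k) (nfold 4 β77 (n + 1)) a x =
        tw tX (eX k) (nfold 4 β77 n) a (tw tX (eX k) ((sh^[3 * n]) β77) a x) := by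
      rw [hκ, hTWA.mul, hβa]
    obtain ⟨hy1, hy2⟩ := tw_shn hTWB tX (eX k) β77 (3 * n) a x
    have hysum : ∑ i ∈ Finset.range 4,
        (tw tX (eX k) ((sh^[3 * n]) β77) a x - x) (3 * n + i) = 0 := by
      have h1 := hTWB.sum (PowerSeries ℂ) _ tX (eX k) 4 β77 β77_mem
        (fun j => a (3 * n + j)) (fun j => x (3 * n + j))
      have h2 : ∀ i, (tw tX (eX k) ((sh^[3 * n]) β77) a x - x) (3 * n + i) =
          tw tX (eX k) β77 (fun j => a (3 * n + j)) (fun j => x (3 * n + j)) i -
            x (3 * n + i) := fun i => by rw [Pi.sub_apply, hy2]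
      simp only [h2]
      rw [Finset.sum_sub_distrib, h1, sub_self]
    rw [htw] at hx ⊢
    generalize hy : tw tX (eX k) ((sh^[3 * n]) β77) a x = y at *
    -- the block is congruent to the identity on `x`
    have hdiv1 : ∀ i, 3 * n + 1 ≤ i → ∀ p, (X : PowerSeries ℂ) ∣ y i p - x i p := by
      intro i hi p
      have := hx i p
      rwa [hTWB.loc1 _ _ _ _ (3 * n + 1) _ (hmem n) a y i hi] at this
    have hdiv : ∀ i p, (X : PowerSeries ℂ) ∣ y i p - x i p := by
      intro i p
      by_cases h1 : 3 * n + 1 ≤ i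
      · exact hdiv1 i h1 p
      · by_cases h2 : i < 3 * n
        · rw [hy1 i h2, sub_self]; exact dvd_zero _
        · have h3 : i = 3 * n := by omega
          subst h3
          have h4 := congrFun hysum p
          rw [Finset.sum_range_succ', Finset.sum_range_succ', Finset.sum_range_succ',
            Finset.sum_range_succ', Finset.sum_range_zero] at h4
          simp only [Pi.add_apply, Pi.sub_apply, Pi.zero_apply, zero_add, add_zero] at h4
          have h5 := hdiv1 (3 * n + (0 + 1)) (by omega) p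
          have h6 := hdiv1 (3 * n + (0 + 1 + 1)) (by omega) p
          have h7 := hdiv1 (3 * n + (0 + 1 + 1 + 1)) (by omega) p
          simp only [zero_add] at h5 h6 h7 h4
          have h8 : y (3 * n) p - x (3 * n) p =
              -((y (3 * n + 1) p - x (3 * n + 1) p) +
                (y (3 * n + (1 + 1)) p - x (3 * n + (1 + 1)) p) +
                (y (3 * n + (1 + 1 + 1)) p - x (3 * n + (1 + 1 + 1)) p)) := by
            linear_combination h4
          rw [h8, dvd_neg]
          exact dvd_add (dvd_add h5 h6) h7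
    choose u hu using hdiv
    have hyu : y = x + (X : PowerSeries ℂ) • u := by
      funext i p
      have := hu i p
      simp only [Pi.add_apply, Pi.smul_apply, smul_eq_mul]
      linear_combination this
    have hκy : tw tX (eX k) (nfold 4 β77 n) a y = tw tX (eX k) (nfold 4 β77 n) a x +
        (X : PowerSeries ℂ) • tw tX (eX k) (nfold 4 β77 n) a u := by
      rw [hyu, hTWA.add, hTWA.smul]
    have hx' : ∀ i p, (X : PowerSeries ℂ) ∣
        tw tX (eX k) (nfold 4 β77 n) a x i p - x i p := by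
      intro i p
      have h1 := hx i p
      rw [hκy] at h1
      simp only [Pi.add_apply, Pi.smul_apply, smul_eq_mul] at h1
      have h2 : tw tX (eX k) (nfold 4 β77 n) a x i p - x i p =
          (tw tX (eX k) (nfold 4 β77 n) a x i p +
            X * tw tX (eX k) (nfold 4 β77 n) a u i p - x i p) -
          X * tw tX (eX k) (nfold 4 β77 n) a u i p := by ring
      rw [h2]
      exact dvd_sub h1 (dvd_mul_right _ _)
    have hih := ih hPn x hx'
    choose v hv using hx'
    have hκx : tw tX (eX k) (nfold 4 β77 n) a x = x + (X : PowerSeries ℂ) • v := by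
      funext i p
      have := hv i p
      simp only [Pi.add_apply, Pi.smul_apply, smul_eq_mul]
      linear_combination this
    -- the three contributions
    have hA : Om cX tX (eX k) (3 * (n + 1) + 1) a (tw tX (eX k) (nfold 4 β77 n) a x - x) x =
        Om cX tX (eX k) (3 * n + 1) a (tw tX (eX k) (nfold 4 β77 n) a x - x) x := by
      have h1 := (Om_ext cX tX (eX k) (3 * n + 1) a
        (tw tX (eX k) (nfold 4 β77 n) a x - x) x
        (fun i hi => by
          rw [Pi.sub_apply, hTWB.loc1 _ _ _ _ (3 * n + 1) _ (hmem n) a x i hi, sub_self])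
        (by
          simp only [Pi.sub_apply]
          rw [Finset.sum_sub_distrib, hTWB.sum _ _ _ _ (3 * n + 1) _ (hmem n), sub_self])
        3).1
      rw [show 3 * (n + 1) + 1 = 3 * n + 1 + 3 by omega]
      exact h1
    have hB : Om cX tX (eX k) (3 * (n + 1) + 1) a (y - x) x =
        Om cX tX (eX k) 4 (fun i => a (3 * n + i))
        (tw tX (eX k) β77 (fun i => a (3 * n + i)) (fun i => x (3 * n + i)) -
          fun i => x (3 * n + i)) (fun i => x (3 * n + i)) := by
      have h1 := Om_shift cX tX (eX k) 4 (3 * n) a (y - x) x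
        (fun i hi => by rw [Pi.sub_apply, hy1 i hi, sub_self]) hysum
      rw [show 3 * (n + 1) + 1 = 3 * n + 4 by omega, h1]
      congr 1
      funext i
      rw [Pi.sub_apply, Pi.sub_apply, hy2]
    have hC : Om cX tX (eX k) (3 * (n + 1) + 1) a (tw tX (eX k) (nfold 4 β77 n) a u) x -
        Om cX tX (eX k) (3 * (n + 1) + 1) a u x =
        - (X * Om cX tX (eX k) (3 * (n + 1) + 1) a (tw tX (eX k) (nfold 4 β77 n) a u) v) := by
      have h1 := hTWF (PowerSeries ℂ) _ tX (eX k) cX cX_tX (cX_eX k) (3 * (n + 1) + 1)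
        (nfold 4 β77 n) (Bn_mono (by omega) (hmem n)) a u x
      rw [hcn, hκx, Om_add_right, Om_smul_right] at h1
      linear_combination h1
    have hD : tw tX (eX k) (nfold 4 β77 n) a y - x =
        (tw tX (eX k) (nfold 4 β77 n) a x - x) +
        ((X : PowerSeries ℂ) • tw tX (eX k) (nfold 4 β77 n) a u) := by
      rw [hκy]; abel
    have hE : y - x = (X : PowerSeries ℂ) • u := by rw [hyu]; abel
    have hF := hB
    rw [hE, Om_smul_left, cX_X] at hF
    rw [hD, Om_add_left, Om_smul_left, cX_X, hA, Finset.sum_range_succ, ← hF]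
    obtain ⟨q, hq⟩ := hih
    refine ⟨q - Om cX tX (eX k) (3 * (n + 1) + 1) a
      (tw tX (eX k) (nfold 4 β77 n) a u) v, ?_⟩
    linear_combination hq + X * hC

end Pool.Agent.H81.SG
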